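import Mathlib
import Pool.Agent.H.MP_6e75db_lc.A

set_option autoImplicit false

namespace Pool.Agent.H.MP_405a2c_gt

open Set Function Cardinal Pointwise Pool.Agent.H.MP_77d395_lc Pool.Agent.H.MP_6e75db_lc

section
variable {G : Type} [Group G] (J : Set (Set G))

/-- group ideals -/
def GI : Prop := IsLowerSet J ∧ (∀ A ∈ J, ∀ B ∈ J, A ∪ B ∈ J) ∧ Set.univ ∉ J ∧
  (∀ A : Set G, A.Finite → A ∈ J) ∧ ∀ A ∈ J, ∀ B ∈ J, A * B⁻¹ ∈ J

/-- the ball of radius `E_A` around `S` -/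
def ball (A S : Set G) : Set G := {y | ∃ x ∈ S, y ∈ A * {x} ∪ {x}}

/-- bounded sets -/
def Bd (B : Set G) : Prop := ∃ A ∈ J, ∃ x, B ⊆ ball A {x}

/-- normality of the ballean of `J` -/
def Normal : Prop := ∀ P Q : Set G, (∀ A ∈ J, Bd J (ball A P ∩ ball A Q)) →
  ∃ U V, Disjoint U V ∧ (∀ A ∈ J, Bd J (ball A P \ U)) ∧ ∀ A ∈ J, Bd J (ball A Q \ V)

/-- `J` has a linearly ordered base -/
def Lin : Prop := ∃ 𝓑 ⊆ J, IsChain (· ⊆ ·) 𝓑 ∧ ∀ A ∈ J, ∃ B ∈ 𝓑, A ⊆ B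

theorem bJ (h : GI J) {B : Set G} : Bd J B ↔ B ∈ J :=
  ⟨fun ⟨A, a, x, c⟩ => h.1 (c.trans fun _ ⟨_, e, p⟩ => by simpa [← show _ = x from e] using p)
    (h.2.1 _ (h.2.2.2.2 A a {x⁻¹} (h.2.2.2.1 _ (toFinite _))) {x} (h.2.2.2.1 _ (toFinite _))),
    fun b => ⟨B, b, 1, fun y p => ⟨1, rfl, .inl (by simpa using p)⟩⟩⟩

theorem nm (h : GI J) (e : ∀ P ∉ J, ∃ A ∈ J, A * P = Set.univ) : Normal J := fun P Q d => by
  have b : ∀ P ∈ J, ∀ A ∈ J, Bd J (ball A P \ ∅) := fun P p A a => (bJ J h).2 (h.1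
    (fun y ⟨⟨x, q, r⟩, _⟩ => r.imp (fun r => mul_subset_mul_left (by simpa using q) r)
      (· ▸ q)) (h.2.1 _ (h.2.2.2.2 A a _ (h.2.2.2.2 {1} (h.2.2.2.1 _ (toFinite _)) P p)) P p))
  have c : ∀ P, ∀ A ∈ J, Bd J (ball A P \ Set.univ) := fun P A a => ⟨A, a, 1, by simp⟩
  by_cases p : P ∈ J
  · exact ⟨∅, _, by simp, b P p, c Q⟩
  by_cases q : Q ∈ J
  · exact ⟨_, ∅, by simp, c P, b Q q⟩
  obtain ⟨A, a, p⟩ := e P p
  obtain ⟨B, b, q⟩ := e Q q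
  refine (h.2.2.1 (h.1 (fun y _ => ?_) ((bJ J h).1 (d _ (h.2.1 A a B b))))).elim
  obtain ⟨u, u1, v, v1, rfl⟩ := p.ge (mem_univ y)
  obtain ⟨w, w1, z, z1, e⟩ := q.ge (mem_univ (u * v))
  exact ⟨⟨v, v1, .inl ⟨u, .inl u1, v, rfl, rfl⟩⟩, z, z1, .inl ⟨w, .inr w1, z, rfl, e⟩⟩

end

abbrev V := ℕ →₀ ZMod 2
abbrev W := ℕ → ZMod 2

theorem tf {π ρ : V →ₗ[ZMod 2] W} (h : (ρ '' π.ker).Finite) {A : Set V} (a : (π '' A).Finite) :
    (ρ '' A).Finite := by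
  refine ((a.image (ρ ∘ invFun π)).add h).subset ?_
  rintro _ ⟨x, p, rfl⟩
  exact ⟨_, ⟨_, ⟨x, p, rfl⟩, rfl⟩, _, ⟨x - invFun π (π x), by simp [invFun_eq ⟨x, rfl⟩], rfl⟩, by simp⟩

theorem step (S : ℕ → V →ₗ[ZMod 2] W) (i : ∀ n, (range (S n)).Infinite)
    (m : ∀ m n, m ≤ n → (S n '' (S m).ker).Finite) (A : Set V) :
    ∃ π : V →ₗ[ZMod 2] W, (range π).Infinite ∧ (∀ n, (π '' (S n).ker).Finite) ∧
      ((π '' A).Finite ∨ (∀ v, ∃ a ∈ A, π a = π v) ∧ (S 0 '' π.ker).Infinite) := by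
  obtain ⟨v, hv⟩ := exists_surjective_nat V
  have sp : ∀ {M : Type} [AddCommGroup M] [Module (ZMod 2) M] {s : Set M}, s.Finite →
      (Submodule.span (ZMod 2) s : Set M).Finite := fun f =>
    have := Module.Finite.span_of_finite (ZMod 2) f
    Module.finite_of_finite (ZMod 2)
  choose f f1 f2 using fun n => Submodule.exists_le_ker_of_lt_top (Submodule.span (ZMod 2)
    (v '' Iic n ∪ ⋃ k ∈ Iic n, (S k).ker)) (lt_top_iff_ne_top.2 fun e => i n (by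
      refine (sp (s := S n '' _) ?_).subset (by
        rw [← Submodule.map_span, e, Submodule.map_top, LinearMap.coe_range])
      rw [image_union, image_iUnion₂]
      exact (((finite_Iic n).image _).image _).union ((finite_Iic n).biUnion fun k l => m k n l)))
  let ρ := LinearMap.pi f
  have z : ∀ n, {w : W | ∀ k ≥ n, w k = 0}.Finite := fun n => Finite.of_finite_image
    (toFinite _) (f := fun w (k : Fin n) => w k) fun a p b q e => funext fun k =>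
      (lt_or_ge k n).elim (fun l => congrFun e ⟨k, l⟩) fun l => (p k l).trans (q k l).symm
  have r1 : ∀ n, (ρ '' (S n).ker).Finite := fun n => (z n).subset fun _ ⟨x, p, e⟩ k l =>
    e ▸ f2 k (Submodule.subset_span (.inr (mem_biUnion l p)))
  have r2 : (range ρ).Infinite := fun c => by
    obtain ⟨N, hN⟩ := (c.image (invFun (ρ ∘ v))).bddAbove
    refine f1 N (LinearMap.ext fun x => ?_)
    have := invFun_eq (f := ρ ∘ v) (b := ρ x) ((hv x).imp fun _ => congrArg ρ)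
    exact (congrFun this N).symm.trans (f2 N (Submodule.subset_span (.inl
      ⟨_, hN ⟨_, ⟨x, rfl⟩, rfl⟩, rfl⟩)))
  by_cases c : (ρ '' A).Finite
  · exact ⟨ρ, r2, r1, .inl c⟩
  obtain ⟨b, b1, b2, b3⟩ := exists_linearIndependent (ZMod 2) (ρ '' A)
  have : Infinite b := Set.Infinite.to_subtype fun f => c ((sp f).subset
    (b2 ▸ Submodule.subset_span))
  have := (((to_countable A).image ρ).mono b1).to_subtype
  obtain ⟨θ⟩ : Nonempty (b ≃ V × ℕ) := inferInstance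
  obtain ⟨τ, t⟩ := ((Module.Basis.span b3).constr (ZMod 2) fun x => (θ x).1).exists_extend
  have t : ∀ x : b, τ x = (θ x).1 := fun x => by
    have := LinearMap.congr_fun t (Module.Basis.span b3 x)
    rw [Module.Basis.constr_basis] at this
    simpa using this
  have k : ∀ u n, ∃ a ∈ A, ρ a = θ.symm (u, n) ∧ τ (ρ a) = u := fun u n =>
    let ⟨a, p, q⟩ := b1 (θ.symm (u, n)).2; ⟨a, p, q, by rw [q, t]; simp⟩
  refine ⟨Finsupp.lcoeFun ∘ₗ τ ∘ₗ ρ, (infinite_range_of_injective (f := fun u : V => (u : W))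
    DFunLike.coe_injective).mono (range_subset_iff.2 fun u =>
      let ⟨a, _, _, p⟩ := k u 0; ⟨a, by simp [p]⟩), fun n => by
      simpa [image_image] using (r1 n).image (Finsupp.lcoeFun ∘ₗ τ : W →ₗ[ZMod 2] W),
    .inr ⟨fun u => (k (τ (ρ u)) 0).imp fun a p => ⟨p.1, by simp [p.2.2]⟩, fun c =>
      (infinite_range_of_injective (f := fun n => (θ.symm (0, n)).1) fun _ _ e => by
        simpa using θ.symm.injective (Subtype.ext e)) ((tf (r1 0) c).subset fun _ ⟨n, e⟩ => ?_)⟩⟩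
  obtain ⟨a, -, p, q⟩ := k 0 n
  exact ⟨a, by simp [q], p.trans e⟩

theorem main (hc : (𝔠 : Cardinal.{0}) = ℵ₁) :
    ∃ J : Set (Set (Multiplicative V)), GI J ∧ Normal J ∧ ¬ Lin J := by
  have : Nonempty {π : V →ₗ[ZMod 2] W // (range π).Infinite} :=
    ⟨⟨Finsupp.lcoeFun, infinite_range_of_injective DFunLike.coe_injective⟩⟩
  obtain ⟨U, u1, u2⟩ := rec1 (T := {π : V →ₗ[ZMod 2] W // (range π).Infinite}) (K := Set V)
    (by simp [hc]) (fun π ρ => (ρ.1 '' π.1.ker).Finite) (fun π => (finite_singleton 0).subset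
      fun _ ⟨_, p, e⟩ => e ▸ p) (fun _ _ _ p q => tf q p) (fun σ A π => (π.1 '' A).Finite ∨
        (∀ v, ∃ a ∈ A, π.1 a = π.1 v) ∧ (σ.1 '' π.1.ker).Infinite) fun S m A =>
    let ⟨π, a, b, c⟩ := step (fun n => (S n).1) (fun n => (S n).2) m A; ⟨⟨π, a⟩, b, c⟩
  let J : Set (Set (Multiplicative V)) := {A : Set V | ∃ a, ((U a).1 '' A).Finite}
  have j : ∀ a b (A : Set V), a ≤ b → ((U a).1 '' A).Finite → ((U b).1 '' A).Finite :=
    fun a b A l => tf (u1 a b l)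
  have n : ∀ a, ¬ ((U a).1 '' Set.univ).Finite := fun a c => (U a).2 (image_univ ▸ c)
  have k : ∀ a, ((U a).1.ker : Set V) ∈ J := fun a => ⟨a, u1 a a le_rfl⟩
  have g : GI J := ⟨fun A B l ⟨a, p⟩ => ⟨a, p.subset (image_mono l)⟩, fun A ⟨a, p⟩ B ⟨b, q⟩ =>
    ⟨max a b, image_union _ _ _ ▸ (j _ _ _ (le_max_left a b) p).union (j _ _ _ (le_max_right a b) q)⟩,
    fun ⟨a, p⟩ => n a p, fun A f => ⟨o, f.image _⟩, fun A ⟨a, p⟩ B ⟨b, q⟩ => ⟨max a b,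
      ((j _ _ _ (le_max_left a b) p).sub (j _ _ _ (le_max_right a b) q)).subset
        fun _ ⟨_, ⟨x, p, y, q, e⟩, d⟩ => ⟨_, ⟨x, p, rfl⟩, _, ⟨-y.toAdd, q, rfl⟩, by
          rw [← d, ← e]
          exact (map_sub (U _).1 x.toAdd (-y.toAdd)).symm.trans (congrArg _ (sub_neg_eq_add _ _))⟩⟩⟩
  refine ⟨J, g, nm J g fun P p => ?_, fun ⟨𝓑, b1, b2, b3⟩ => ?_⟩
  · obtain ⟨b, c | ⟨c, -⟩⟩ := u2 o P
    · exact (p ⟨b, c⟩).elim
    refine ⟨_, k b, eq_univ_of_forall fun v => ?_⟩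
    obtain ⟨a, a1, a2⟩ := c v
    exact ⟨v / .ofAdd a, (map_sub (U b).1 v.toAdd a).trans (sub_eq_zero.2 a2.symm), .ofAdd a, a1,
      div_mul_cancel v _⟩
  choose B p q using fun v => b3 {v} (g.2.2.2.1 _ (toFinite _))
  choose a ha using fun v => b1 (p v)
  have : Countable (Multiplicative V) := inferInstanceAs (Countable V)
  obtain ⟨c, hc⟩ := bd (countable_range a)
  obtain ⟨b, d | ⟨-, d⟩⟩ := u2 c Set.univ
  · exact n b d
  obtain ⟨C, c1, c2⟩ := b3 _ (k b)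
  obtain ⟨v, hv⟩ := (ne_univ_iff_exists_notMem C).1 fun e => g.2.2.1 (e ▸ b1 c1)
  exact d ((j _ _ _ (hc _ ⟨v, rfl⟩).le (ha v)).subset (image_mono (c2.trans
    ((b2.total c1 (p v)).resolve_right fun l => hv (l (q v rfl))))))

end Pool.Agent.H.MP_405a2c_gt
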